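import Pool.Agent.W904.AK.Defs

/-!
# Sums-differences at positive integer heights

`SliceBound ms c`: a finite set `G` of pairs `(x, d)` of integers has at most
`(max_m |{x + m d}|) ^ c` different second coordinates, `m` running over the finite set `ms` of
positive integers.
-/

set_option autoImplicit false

open Finset

namespace Pool.Agent.W814.BB

open Pool.Agent.W904.AK

/-- The number of differences is at most the `c`-th power of the largest slice. -/
def SliceBound (ms : Finset ℕ) (c : ℝ) : Prop :=
  ∀ G : Finset (ℤ × ℤ), ((G.image Prod.snd).card : ℝ) ≤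
    ((ms.sup fun m => (G.image fun g => g.1 + (m : ℤ) * g.2).card : ℕ) : ℝ) ^ c

/-- The projection form of sums-differences gives positive integer heights. -/
theorem sliceBound_of_SDc {c : ℝ} (hc : 0 ≤ c) (h : SDc c) :
    ∃ ms : Finset ℕ, ms.Nonempty ∧ (∀ m ∈ ms, 0 < m) ∧ SliceBound ms c := by
  classical
  obtain ⟨S, hS, hA⟩ := h
  -- a common multiple of the numerators of `1 + r`
  set M : ℤ := ∏ r ∈ S, |(1 + r).num| with hM
  have hr0 : ∀ r ∈ S, (1 + r) ≠ 0 := by
    intro r hr h0
    have : r = -1 := by linarith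
    exact hS (this ▸ hr)
  have hM0 : 0 < M := by
    rw [hM]
    refine Finset.prod_pos ?_
    intro r hr
    rw [abs_pos, Ne, Rat.num_eq_zero]
    exact hr0 r hr
  have he : ∀ r : ℚ, ∃ e : ℤ, r ∈ S → ((M : ℤ) : ℚ) = (1 + r) * e := by
    intro r
    by_cases hr : r ∈ S
    · have h0 : (1 + r).num ∣ M :=
        ((dvd_abs _ _).2 dvd_rfl : (1 + r).num ∣ |(1 + r).num|).trans (Finset.dvd_prod_of_mem (fun r : ℚ => |(1 + r).num|) hr)
      obtain ⟨k, hk⟩ := h0
      refine ⟨k * (1 + r).den, fun _ => ?_⟩
      have h2 : ((1 + r) : ℚ) * (1 + r).den = (1 + r).num := Rat.mul_den_eq_num _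
      rw [hk]
      push_cast
      rw [← h2]
      ring
    · exact ⟨0, fun h => absurd h hr⟩
  choose e he using he
  set s : ℤ := 1 + ∑ r ∈ S, |e r| with hs
  have hs1 : 1 ≤ s := by
    have : 0 ≤ ∑ r ∈ S, |e r| := Finset.sum_nonneg fun r _ => abs_nonneg _
    omega
  have hes : ∀ r ∈ S, |e r| < s := by
    intro r hr
    have := Finset.single_le_sum (f := fun r => |e r|) (fun r _ => abs_nonneg _) hr
    omega
  -- the heights
  set m0 : ℤ := s * M with hm0
  have hsm : s ≤ m0 := by
    rw [hm0]
    nlinarith
  have hm0p : 0 < m0 := by omega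
  have hmr : ∀ r ∈ S, 0 < m0 + e r := by
    intro r hr
    have h1 := hes r hr
    have h4 := neg_abs_le (e r)
    omega
  refine ⟨insert m0.toNat (S.image fun r => (m0 + e r).toNat), insert_nonempty _ _, ?_, ?_⟩
  · intro m hm
    rw [mem_insert, mem_image] at hm
    rcases hm with rfl | ⟨r, hr, rfl⟩
    · omega
    · have := hmr r hr
      omega
  intro G
  set ms : Finset ℕ := insert m0.toNat (S.image fun r => (m0 + e r).toNat) with hms
  set F : ℕ → ℕ := fun m => (G.image fun g => g.1 + (m : ℤ) * g.2).card with hF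
  set A : Finset (ℤ × ℤ) := G.image fun g => (g.1 + (m0 + M) * g.2, g.1 + m0 * g.2) with hAdef
  have key := hA A
  -- the differences
  have e1 : (A.image (fun p : ℤ × ℤ => (p.1 : ℚ) + (-1) * (p.2 : ℚ))).card
      = (G.image Prod.snd).card := by
    have : A.image (fun p : ℤ × ℤ => (p.1 : ℚ) + (-1) * (p.2 : ℚ))
        = (G.image Prod.snd).image (fun d : ℤ => (M : ℚ) * (d : ℚ)) := by
      rw [hAdef, image_image, image_image]
      refine image_congr ?_
      intro g _
      simp only [Function.comp]
      push_cast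
      ring
    rw [this, card_image_of_injective]
    intro d d' hdd
    have hMq : (M : ℚ) ≠ 0 := by exact_mod_cast hM0.ne'
    have := mul_left_cancel₀ hMq hdd
    exact_mod_cast this
  -- the slice at height 0
  have e2 : (A.image (fun p : ℤ × ℤ => (p.2 : ℚ))).card ≤ ms.sup F := by
    have h1 : (A.image (fun p : ℤ × ℤ => (p.2 : ℚ))) =
        (G.image fun g => g.1 + ((m0.toNat : ℕ) : ℤ) * g.2).image (fun z : ℤ => (z : ℚ)) := by
      rw [hAdef, image_image, image_image]
      refine image_congr ?_
      intro g _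
      simp only [Function.comp]
      rw [Int.toNat_of_nonneg hm0p.le]
    rw [h1]
    refine card_image_le.trans ?_
    exact Finset.le_sup (f := F) (mem_insert_self _ _)
  have e3 : (S.sup (fun r : ℚ =>
      (A.image (fun p : ℤ × ℤ => (p.1 : ℚ) + r * (p.2 : ℚ))).card)) ≤ ms.sup F := by
    refine Finset.sup_le ?_
    intro r hr
    have h1 : (A.image (fun p : ℤ × ℤ => (p.1 : ℚ) + r * (p.2 : ℚ))) =
        (G.image fun g => g.1 + (((m0 + e r).toNat : ℕ) : ℤ) * g.2).image
          (fun z : ℤ => (1 + r) * (z : ℚ)) := by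
      rw [hAdef, image_image, image_image]
      refine image_congr ?_
      intro g _
      simp only [Function.comp]
      rw [Int.toNat_of_nonneg (hmr r hr).le]
      push_cast
      have := he r hr
      rw [this]
      ring
    rw [h1]
    refine card_image_le.trans ?_
    exact Finset.le_sup (f := F) (mem_insert_of_mem (mem_image_of_mem _ hr))
  rw [e1] at key
  refine key.trans ?_
  refine Real.rpow_le_rpow ?_ ?_ hc
  · exact le_max_of_le_left (Nat.cast_nonneg _)
  · refine max_le ?_ ?_
    · exact_mod_cast e2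
    · exact_mod_cast e3

end Pool.Agent.W814.BB
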