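import Pool.Agent.H435R2.GreenCore
import Pool.Agent.W814.BB.Slices

/-!
# Flags over a stem, with the sums-differences inequality in each residue class

`line N a p` is the chosen class modulo `p` inside `[1,N]`, `cov N Q a` the covered set,
`mult N Q a x` the multiplicity and `par N Q a p` the pairs of covered integers congruent
modulo `p` (definitions in `Pool/Agent/H435R2/GreenCore.lean`).
-/

set_option autoImplicit false

open Finset

namespace Pool.Agent.W814.BB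

open Pool.Agent.H435R2.GreenCore

variable (N : ℕ) (Q : Finset ℕ) (a : ℕ → ℤ) (K : ℕ)

/-- flags over the stem `p`: a point `x` of the stem and a nonzero multiple `d` of a prime `q ≠ p`
whose class contains `x`, such that `x + K d` lies in `[1,N]` -/
noncomputable def fl (p : ℕ) : Finset (ℤ × ℤ) :=
  ((line N a p) ×ˢ (Icc (-(N:ℤ)) N)).filter (fun g => g.2 ≠ 0 ∧ 1 ≤ g.1 + (K:ℤ) * g.2 ∧
    g.1 + (K:ℤ) * g.2 ≤ N ∧ ∃ q ∈ Q, q ≠ p ∧ (q:ℤ) ∣ g.2 ∧ g.1 ∈ line N a q)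

/-- covered integers in the class `c` modulo `p` -/
noncomputable def nu (p : ℕ) (c : ZMod p) : ℕ :=
  #((cov N Q a).filter (fun z : ℤ => ((z : ℤ) : ZMod p) = c))

variable {N Q a K}

lemma mem_line {p : ℕ} {x : ℤ} : x ∈ line N a p ↔ (1 ≤ x ∧ x ≤ N) ∧ (p:ℤ) ∣ x - a p := by
  unfold line
  rw [mem_filter, mem_Icc]

lemma fl_point {p : ℕ} {g : ℤ × ℤ} (hg : g ∈ fl N Q a K p) {m : ℕ} (hm : m ≤ K) :
    g.1 + (m:ℤ) * g.2 ∈ cov N Q a := by
  unfold fl at hg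
  rw [mem_filter, mem_product] at hg
  obtain ⟨⟨hx, -⟩, hd, h1, h2, q, hq, -, ⟨k, hk⟩, hxq⟩ := hg
  rw [mem_line] at hx hxq
  obtain ⟨hx, -⟩ := hx
  obtain ⟨-, j, hj⟩ := hxq
  unfold cov
  rw [mem_biUnion]
  refine ⟨q, hq, ?_⟩
  rw [mem_line]
  have hm' : (m:ℤ) ≤ K := by exact_mod_cast hm
  have hm0 : (0:ℤ) ≤ m := by positivity
  refine ⟨?_, ?_⟩
  · rcases lt_or_gt_of_ne hd with h | h
    · constructor <;> nlinarith
    · constructor <;> nlinarith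
  · refine ⟨j + m * k, ?_⟩
    rw [hk]
    linear_combination hj

lemma unique_prime (hpr : ∀ p ∈ Q, p.Prime) (hpq : ∀ p ∈ Q, ∀ q ∈ Q, p ≠ q → N ≤ p * q)
    {p q : ℕ} (hp : p ∈ Q) (hq : q ∈ Q) (hne : p ≠ q) {d : ℤ} (hd : (p:ℤ) ∣ d) (hd' : (q:ℤ) ∣ d)
    (hlt : |d| < N) : d = 0 := by
  by_contra h0
  have hcop : IsCoprime (p:ℤ) (q:ℤ) := by
    rw [Nat.isCoprime_iff_coprime]
    exact (Nat.coprime_primes (hpr p hp) (hpr q hq)).2 hne
  have hdd : ((p:ℤ) * q) ∣ d := hcop.mul_dvd hd hd'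
  have hle := Int.le_of_dvd (a := (p:ℤ) * q) (b := |d|) (by rwa [abs_pos]) ((dvd_abs _ _).2 hdd)
  have hN := hpq p hp q hq hne
  have : (N:ℤ) ≤ (p:ℤ) * q := by exact_mod_cast hN
  omega

lemma fl_small {p : ℕ} {g : ℤ × ℤ} (hK : 0 < K) (hg : g ∈ fl N Q a K p) : |g.2| < N := by
  unfold fl at hg
  rw [mem_filter, mem_product, mem_line] at hg
  obtain ⟨⟨⟨⟨hx1, hx2⟩, -⟩, -⟩, hd, h1, h2, -⟩ := hg
  have hK' : (1:ℤ) ≤ K := by exact_mod_cast hK
  rw [abs_lt]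
  rcases lt_or_gt_of_ne hd with h | h
  · constructor <;> nlinarith
  · constructor <;> nlinarith

/-- over a fixed stem, the difference determines the flag -/
lemma fl_inj (hpr : ∀ p ∈ Q, p.Prime) (hpq : ∀ p ∈ Q, ∀ q ∈ Q, p ≠ q → N ≤ p * q) (hK : 0 < K)
    {p : ℕ} (hp : p ∈ Q) : Set.InjOn Prod.snd ((fl N Q a K p : Finset (ℤ × ℤ)) : Set (ℤ × ℤ)) := by
  intro g hg g' hg' h
  have hs := fl_small hK (mem_coe.1 hg)
  have hg1 := mem_coe.1 hg
  have hg2 := mem_coe.1 hg'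
  unfold fl at hg1 hg2
  rw [mem_filter, mem_product, mem_line] at hg1 hg2
  obtain ⟨⟨⟨⟨hx1, hx2⟩, hx3⟩, -⟩, hd, -, -, q, hq, hqp, hqd, hxq⟩ := hg1
  obtain ⟨⟨⟨⟨hy1, hy2⟩, hy3⟩, -⟩, -, -, -, q', hq', hqp', hqd', hyq⟩ := hg2
  have hqq : q = q' := by
    by_contra hne
    exact hd (unique_prime hpr hpq hq hq' hne hqd (by rw [h]; exact hqd') hs)
  subst hqq
  rw [mem_line] at hxq hyq
  have h1 : (p:ℤ) ∣ g.1 - g'.1 := by
    have := dvd_sub hx3 hy3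
    rwa [sub_sub_sub_cancel_right] at this
  have h2 : (q:ℤ) ∣ g.1 - g'.1 := by
    have := dvd_sub hxq.2 hyq.2
    rwa [sub_sub_sub_cancel_right] at this
  have h3 : g.1 - g'.1 = 0 := by
    refine unique_prime hpr hpq hp hq (Ne.symm hqp) h1 h2 ?_
    rw [abs_lt]
    omega
  ext
  · omega
  · exact h

/-- the flags over one stem -/
lemma fl_card_le {ms : Finset ℕ} {c : ℝ} (hc : 0 ≤ c) (h0 : ms.Nonempty)
    (hms : ∀ m ∈ ms, 0 < m ∧ m ≤ K)
    (hSB : SliceBound ms c)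
    (hpr : ∀ p ∈ Q, p.Prime) (hpq : ∀ p ∈ Q, ∀ q ∈ Q, p ≠ q → N ≤ p * q) (hK : 0 < K)
    {p : ℕ} [NeZero p] (hp : p ∈ Q) (hKp : K < p) :
    (#(fl N Q a K p) : ℝ) ≤ ms.card * ∑ u : ZMod p, (nu N Q a p u : ℝ) ^ c := by
  classical
  have hpp := hpr p hp
  have : Fact p.Prime := ⟨hpp⟩
  set F := fl N Q a K p with hF
  have e1 : #F = ∑ δ : ZMod p, #(F.filter (fun g => ((g.2 : ℤ) : ZMod p) = δ)) :=
    card_eq_sum_card_fiberwise (f := fun g : ℤ × ℤ => ((g.2 : ℤ) : ZMod p)) (t := univ)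
      (by intro x _; simp)
  have e2 : ∀ δ : ZMod p, (#(F.filter (fun g => ((g.2 : ℤ) : ZMod p) = δ)) : ℝ) ≤
      ∑ m ∈ ms, (nu N Q a p ((a p : ZMod p) + m * δ) : ℝ) ^ c := by
    intro δ
    set G := F.filter (fun g => ((g.2 : ℤ) : ZMod p) = δ) with hG
    have h1 : #G = #(G.image Prod.snd) := by
      rw [card_image_of_injOn]
      intro g hg g' hg' h
      exact fl_inj hpr hpq hK hp (mem_coe.2 (mem_filter.1 (mem_coe.1 hg)).1)
        (mem_coe.2 (mem_filter.1 (mem_coe.1 hg')).1) h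
    rw [h1]
    refine (hSB G).trans ?_
    obtain ⟨m, hm, hmax⟩ := exists_mem_eq_sup ms h0
      (fun m => #(G.image fun g => g.1 + (m : ℤ) * g.2))
    rw [hmax]
    have h2 : #(G.image fun g => g.1 + (m : ℤ) * g.2) ≤ nu N Q a p ((a p : ZMod p) + m * δ) := by
      unfold nu
      refine card_le_card ?_
      intro z hz
      rw [mem_image] at hz
      obtain ⟨g, hg, rfl⟩ := hz
      rw [hG, mem_filter] at hg
      rw [mem_filter]
      refine ⟨fl_point hg.1 (hms m hm).2, ?_⟩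
      have h3 := hg.1
      rw [hF] at h3
      unfold fl at h3
      rw [mem_filter, mem_product, mem_line] at h3
      have h4 : ((g.1 : ℤ) : ZMod p) = (a p : ZMod p) := by
        rw [← sub_eq_zero, ← Int.cast_sub, ZMod.intCast_zmod_eq_zero_iff_dvd]
        exact h3.1.1.2
      push_cast
      rw [h4, hg.2]
    have h3 : ((#(G.image fun g => g.1 + (m : ℤ) * g.2) : ℕ) : ℝ) ^ c ≤
        (nu N Q a p ((a p : ZMod p) + m * δ) : ℝ) ^ c :=
      Real.rpow_le_rpow (Nat.cast_nonneg _) (by exact_mod_cast h2) hc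
    refine h3.trans ?_
    exact single_le_sum (f := fun m : ℕ => (nu N Q a p ((a p : ZMod p) + m * δ) : ℝ) ^ c)
      (fun m _ => Real.rpow_nonneg (Nat.cast_nonneg _) _) hm
  calc (#F : ℝ) = ∑ δ : ZMod p, (#(F.filter (fun g => ((g.2 : ℤ) : ZMod p) = δ)) : ℝ) := by
        rw [e1]; push_cast; rfl
    _ ≤ ∑ δ : ZMod p, ∑ m ∈ ms, (nu N Q a p ((a p : ZMod p) + m * δ) : ℝ) ^ c :=
        sum_le_sum fun δ _ => e2 δ
    _ = ∑ m ∈ ms, ∑ δ : ZMod p, (nu N Q a p ((a p : ZMod p) + m * δ) : ℝ) ^ c := sum_comm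
    _ = ∑ m ∈ ms, ∑ u : ZMod p, (nu N Q a p u : ℝ) ^ c := by
        refine sum_congr rfl fun m hm => ?_
        have hm0 : (m : ZMod p) ≠ 0 := by
          intro h
          rw [ZMod.natCast_eq_zero_iff] at h
          have := Nat.le_of_dvd (hms m hm).1 h
          have := (hms m hm).2
          omega
        exact (((Equiv.mulLeft₀ (m : ZMod p) hm0).trans (Equiv.addLeft (a p : ZMod p))).sum_comp
          (fun u => (nu N Q a p u : ℝ) ^ c))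
    _ = ms.card * ∑ u : ZMod p, (nu N Q a p u : ℝ) ^ c := by rw [sum_const, nsmul_eq_mul]

/-- interpolation -/
lemma holder2 {ι : Type*} (s : Finset ι) (u v : ι → ℝ) (hu : ∀ i ∈ s, 0 ≤ u i)
    (hv : ∀ i ∈ s, 0 ≤ v i) {c : ℝ} (h1 : 1 < c) (h2 : c < 2) :
    ∑ i ∈ s, u i ^ (2 - c) * v i ^ (c - 1) ≤
      (∑ i ∈ s, u i) ^ (2 - c) * (∑ i ∈ s, v i) ^ (c - 1) := by
  have hp : 0 < 2 - c := by linarith
  have hq : 0 < c - 1 := by linarith
  have hconj : (1 / (2 - c)).HolderConjugate (1 / (c - 1)) := by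
    rw [Real.holderConjugate_iff]
    constructor
    · rw [lt_div_iff₀ hp]
      linarith
    · rw [one_div, one_div, inv_inv, inv_inv]
      ring
  have h := Real.inner_le_Lp_mul_Lq_of_nonneg s hconj (f := fun i => u i ^ (2 - c))
    (g := fun i => v i ^ (c - 1)) (fun i hi => Real.rpow_nonneg (hu i hi) _)
    (fun i hi => Real.rpow_nonneg (hv i hi) _)
  have e1 : ∑ i ∈ s, (u i ^ (2 - c)) ^ (1 / (2 - c)) = ∑ i ∈ s, u i := by
    refine sum_congr rfl fun i hi => ?_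
    rw [← Real.rpow_mul (hu i hi), mul_one_div_cancel hp.ne', Real.rpow_one]
  have e2 : ∑ i ∈ s, (v i ^ (c - 1)) ^ (1 / (c - 1)) = ∑ i ∈ s, v i := by
    refine sum_congr rfl fun i hi => ?_
    rw [← Real.rpow_mul (hv i hi), mul_one_div_cancel hq.ne', Real.rpow_one]
  rw [e1, e2, one_div_one_div, one_div_one_div] at h
  exact h

lemma sum_nu (p : ℕ) [NeZero p] : ∑ u : ZMod p, nu N Q a p u = #(cov N Q a) := by
  unfold nu
  exact (card_eq_sum_card_fiberwise (f := fun z : ℤ => (z : ZMod p)) (t := univ)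
    (by intro x _; simp)).symm

lemma sum_nu_sq (p : ℕ) [NeZero p] : ∑ u : ZMod p, nu N Q a p u ^ 2 = #(par N Q a p) := by
  classical
  set S := cov N Q a with hS
  unfold par
  rw [Finset.card_eq_sum_card_fiberwise (f := fun q : ℤ × ℤ => (q.1 : ZMod p)) (t := Finset.univ)
    (by intro x _; simp)]
  refine Finset.sum_congr rfl ?_
  intro c _
  unfold nu
  rw [sq, ← Finset.card_product]
  congr 1
  ext q
  have hdvd : ∀ x y : ℤ, ((x : ZMod p) = (y : ZMod p)) ↔ (p:ℤ) ∣ x - y := by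
    intro x y
    rw [← sub_eq_zero, ← Int.cast_sub, ZMod.intCast_zmod_eq_zero_iff_dvd]
  simp only [mem_filter, mem_product]
  rw [← hdvd]
  constructor
  · rintro ⟨⟨h1, h2⟩, h3, h4⟩
    exact ⟨⟨⟨h1, h3⟩, by rw [h2, h4]⟩, h2⟩
  · rintro ⟨⟨⟨h1, h2⟩, h3⟩, h4⟩
    exact ⟨⟨h1, h4⟩, h2, by rw [← h3, h4]⟩

/-- the flags over one stem, second form -/
lemma fl_card_le' {ms : Finset ℕ} {c : ℝ} (hc1 : 1 < c) (hc2 : c < 2) (h0 : ms.Nonempty)
    (hms : ∀ m ∈ ms, 0 < m ∧ m ≤ K) (hSB : SliceBound ms c)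
    (hpr : ∀ p ∈ Q, p.Prime) (hpq : ∀ p ∈ Q, ∀ q ∈ Q, p ≠ q → N ≤ p * q) (hK : 0 < K)
    {p : ℕ} (hp : p ∈ Q) (hKp : K < p) :
    (#(fl N Q a K p) : ℝ) ≤ ms.card * ((#(cov N Q a) : ℝ) ^ (2 - c) * (#(par N Q a p) : ℝ) ^ (c - 1)) := by
  have : NeZero p := ⟨(hpr p hp).ne_zero⟩
  refine (fl_card_le (by linarith) h0 hms hSB hpr hpq hK hp hKp).trans ?_
  refine mul_le_mul_of_nonneg_left ?_ (Nat.cast_nonneg _)
  have h := holder2 (univ : Finset (ZMod p)) (fun u => (nu N Q a p u : ℝ))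
    (fun u => (nu N Q a p u : ℝ) ^ 2) (fun _ _ => Nat.cast_nonneg _)
    (fun _ _ => sq_nonneg _) hc1 hc2
  have e1 : ∑ u : ZMod p, (nu N Q a p u : ℝ) = #(cov N Q a) := by
    rw [← sum_nu (N := N) (Q := Q) (a := a) p]
    push_cast
    rfl
  have e2 : ∑ u : ZMod p, (nu N Q a p u : ℝ) ^ 2 = #(par N Q a p) := by
    rw [← sum_nu_sq (N := N) (Q := Q) (a := a) p]
    push_cast
    rfl
  rw [e1, e2] at h
  refine le_trans (le_of_eq ?_) h
  refine sum_congr rfl fun u _ => ?_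
  have hn : (0:ℝ) ≤ (nu N Q a p u : ℝ) := Nat.cast_nonneg _
  rw [← Real.rpow_natCast, ← Real.rpow_mul hn]
  rcases hn.eq_or_lt with h3 | h3
  · rw [← h3, Real.zero_rpow (by linarith), Real.zero_rpow (by linarith), zero_mul]
  · rw [← Real.rpow_add h3]
    congr 1
    push_cast
    ring

/-- all flags -/
theorem sum_fl_le {ms : Finset ℕ} {c : ℝ} (hc1 : 1 < c) (hc2 : c < 2) (h0 : ms.Nonempty)
    (hms : ∀ m ∈ ms, 0 < m ∧ m ≤ K) (hSB : SliceBound ms c)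
    (hpr : ∀ p ∈ Q, p.Prime) (hpq : ∀ p ∈ Q, ∀ q ∈ Q, p ≠ q → N ≤ p * q) (hK : 0 < K)
    (hKp : ∀ p ∈ Q, K < p) :
    ∑ p ∈ Q, (#(fl N Q a K p) : ℝ) ≤ ms.card * (((#Q : ℝ) * #(cov N Q a)) ^ (2 - c) *
      ((#(cov N Q a) : ℝ) * (#(cov N Q a) + #Q)) ^ (c - 1)) := by
  calc ∑ p ∈ Q, (#(fl N Q a K p) : ℝ) ≤ ∑ p ∈ Q, ms.card * ((#(cov N Q a) : ℝ) ^ (2 - c) *
        (#(par N Q a p) : ℝ) ^ (c - 1)) :=
        sum_le_sum fun p hp => fl_card_le' hc1 hc2 h0 hms hSB hpr hpq hK hp (hKp p hp)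
    _ = ms.card * ∑ p ∈ Q, ((#(cov N Q a) : ℝ) ^ (2 - c) * (#(par N Q a p) : ℝ) ^ (c - 1)) := by
        rw [mul_sum]
    _ ≤ ms.card * ((∑ _p ∈ Q, (#(cov N Q a) : ℝ)) ^ (2 - c) *
        (∑ p ∈ Q, (#(par N Q a p) : ℝ)) ^ (c - 1)) := by
        refine mul_le_mul_of_nonneg_left ?_ (Nat.cast_nonneg _)
        exact holder2 Q (fun _ => (#(cov N Q a) : ℝ)) (fun p => (#(par N Q a p) : ℝ))
          (fun _ _ => Nat.cast_nonneg _) (fun _ _ => Nat.cast_nonneg _) hc1 hc2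
    _ ≤ _ := by
        refine mul_le_mul_of_nonneg_left ?_ (Nat.cast_nonneg _)
        rw [sum_const, nsmul_eq_mul]
        refine mul_le_mul_of_nonneg_left ?_ (by positivity)
        refine Real.rpow_le_rpow (sum_nonneg fun _ _ => Nat.cast_nonneg _) ?_ (by linarith)
        have := sum_par_le N Q a hpq hpr
        exact_mod_cast this

/-- lower bound for the number of flags -/
theorem sum_fl_ge (B : ℕ) (hpr : ∀ p ∈ Q, p.Prime)
    (hpq : ∀ p ∈ Q, ∀ q ∈ Q, p ≠ q → N ≤ p * q) (hK : 0 < K)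
    (hB : ∀ q ∈ Q, ∀ x ∈ Icc (1:ℤ) N,
      B ≤ #((Icc (-(N:ℤ)) N).filter (fun d => d ≠ 0 ∧ (q:ℤ) ∣ d ∧ 1 ≤ x + (K:ℤ) * d ∧
        x + (K:ℤ) * d ≤ N))) :
    B * ∑ x ∈ cov N Q a, mult N Q a x ^ 2 ≤
      ∑ p ∈ Q, #(fl N Q a K p) + B * ∑ x ∈ cov N Q a, mult N Q a x := by
  classical
  have h1 : ∀ p ∈ Q, ∑ x ∈ line N a p, B * mult N Q a x ≤ #(fl N Q a K p) + B * #(line N a p) := by
    intro p hp
    set T : ℤ → Finset ℤ := fun x => (Icc (-(N:ℤ)) N).filter (fun d => d ≠ 0 ∧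
      1 ≤ x + (K:ℤ) * d ∧ x + (K:ℤ) * d ≤ N ∧ ∃ q ∈ Q, q ≠ p ∧ (q:ℤ) ∣ d ∧ x ∈ line N a q) with hT
    have e : #(fl N Q a K p) = ∑ x ∈ line N a p, #(T x) := by
      unfold fl
      rw [Finset.card_filter, Finset.sum_product]
      refine Finset.sum_congr rfl ?_
      intro x _
      rw [hT, Finset.card_filter]
    have e' : B * #(line N a p) = ∑ _x ∈ line N a p, B := by
      rw [Finset.sum_const, smul_eq_mul, mul_comm]
    rw [e, e', ← sum_add_distrib]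
    refine Finset.sum_le_sum ?_
    intro x hx
    have hxI : x ∈ Icc (1:ℤ) N := by
      unfold line at hx
      exact (mem_filter.1 hx).1
    set R := (Q.filter (fun q => x ∈ line N a q)).erase p with hR
    set Dq : ℕ → Finset ℤ := fun q => (Icc (-(N:ℤ)) N).filter (fun d => d ≠ 0 ∧ (q:ℤ) ∣ d ∧
      1 ≤ x + (K:ℤ) * d ∧ x + (K:ℤ) * d ≤ N) with hD
    have hRQ : ∀ q ∈ R, q ∈ Q ∧ q ≠ p ∧ x ∈ line N a q := by
      intro q hq
      rw [hR, mem_erase, mem_filter] at hq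
      exact ⟨hq.2.1, hq.1, hq.2.2⟩
    have hdisj : (R : Set ℕ).PairwiseDisjoint Dq := by
      intro q hq q' hq' hne
      rw [Function.onFun, Finset.disjoint_left]
      intro d hd hd'
      rw [hD, mem_filter, mem_Icc] at hd hd'
      refine hd.2.1 (unique_prime hpr hpq (hRQ q (mem_coe.1 hq)).1 (hRQ q' (mem_coe.1 hq')).1 hne
        hd.2.2.1 hd'.2.2.1 ?_)
      rw [mem_Icc] at hxI
      have hK' : (1:ℤ) ≤ K := by exact_mod_cast hK
      obtain ⟨-, h0, -, h1, h2⟩ := hd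
      rw [abs_lt]
      rcases lt_or_gt_of_ne h0 with h | h
      · constructor <;> nlinarith
      · constructor <;> nlinarith
    have hsub : R.biUnion Dq ⊆ T x := by
      intro d hd
      rw [mem_biUnion] at hd
      obtain ⟨q, hq, hd⟩ := hd
      rw [hD, mem_filter] at hd
      rw [hT, mem_filter]
      exact ⟨hd.1, hd.2.1, hd.2.2.2.1, hd.2.2.2.2, q, (hRQ q hq).1, (hRQ q hq).2.1, hd.2.2.1,
        (hRQ q hq).2.2⟩
    have hcard : mult N Q a x ≤ #R + 1 := by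
      unfold mult
      rw [hR]
      have := pred_card_le_card_erase (s := Q.filter (fun q => x ∈ line N a q)) (a := p)
      omega
    calc B * mult N Q a x ≤ B * (#R + 1) := Nat.mul_le_mul_left _ hcard
      _ = ∑ q ∈ R, B + B := by rw [Finset.sum_const, smul_eq_mul]; ring
      _ ≤ ∑ q ∈ R, #(Dq q) + B := by
          gcongr with q hq
          exact hB q (hRQ q hq).1 x hxI
      _ = #(R.biUnion Dq) + B := by
          rw [← Finset.card_biUnion (fun q hq q' hq' hne => hdisj hq hq' hne)]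
      _ ≤ #(T x) + B := by
          gcongr
  have h2' : ∀ g : ℤ → ℕ, ∑ p ∈ Q, ∑ x ∈ line N a p, g x = ∑ x ∈ cov N Q a, mult N Q a x * g x := by
    intro g
    have e1 : ∀ p ∈ Q, ∑ x ∈ line N a p, g x =
        ∑ x ∈ cov N Q a, if x ∈ line N a p then g x else 0 := by
      intro p hp
      rw [← Finset.sum_filter]
      refine Finset.sum_congr ?_ (fun _ _ => rfl)
      ext x
      rw [mem_filter]
      constructor
      · intro h
        exact ⟨by unfold cov; rw [mem_biUnion]; exact ⟨p, hp, h⟩, h⟩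
      · intro h
        exact h.2
    rw [Finset.sum_congr rfl e1, Finset.sum_comm]
    refine Finset.sum_congr rfl ?_
    intro x _
    rw [← Finset.sum_filter, Finset.sum_const, smul_eq_mul]
    unfold mult
    ring
  have h3 := Finset.sum_le_sum h1
  rw [Finset.sum_add_distrib, h2'] at h3
  have h4 : ∑ p ∈ Q, B * #(line N a p) = B * ∑ x ∈ cov N Q a, mult N Q a x := by
    rw [← Finset.mul_sum]
    congr 1
    have := h2' (fun _ => 1)
    simp only [sum_const, smul_eq_mul, mul_one] at this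
    exact this
  rw [h4] at h3
  refine le_trans (le_of_eq ?_) h3
  rw [Finset.mul_sum]
  refine Finset.sum_congr rfl fun x _ => ?_
  ring

/-- The main inequality. -/
theorem flag_main {ms : Finset ℕ} {c : ℝ} (hc1 : 1 < c) (hc2 : c < 2) (h0 : ms.Nonempty)
    (hms : ∀ m ∈ ms, 0 < m ∧ m ≤ K) (hSB : SliceBound ms c) (A B : ℕ)
    (hpr : ∀ p ∈ Q, p.Prime) (hpq : ∀ p ∈ Q, ∀ q ∈ Q, p ≠ q → N ≤ p * q) (hK : 0 < K)
    (hKp : ∀ p ∈ Q, K < p) (hA : ∀ p ∈ Q, A ≤ #(line N a p))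
    (hB : ∀ q ∈ Q, ∀ x ∈ Icc (1:ℤ) N,
      B ≤ #((Icc (-(N:ℤ)) N).filter (fun d => d ≠ 0 ∧ (q:ℤ) ∣ d ∧ 1 ≤ x + (K:ℤ) * d ∧
        x + (K:ℤ) * d ≤ N)))
    (hsmall : 2 * #(cov N Q a) ≤ #Q * A) :
    (B : ℝ) * ((#Q : ℝ) * A) ^ 2 ≤ 2 * #(cov N Q a) * (ms.card * (((#Q : ℝ) * #(cov N Q a)) ^ (2 - c) *
      ((#(cov N Q a) : ℝ) * (#(cov N Q a) + #Q)) ^ (c - 1))) := by
  have h1 := sum_fl_le (a := a) hc1 hc2 h0 hms hSB hpr hpq hK hKp
  have h2 := sum_fl_ge (a := a) B hpr hpq hK hB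
  have h3 := sum_mult N Q a A hA
  set S := ∑ x ∈ cov N Q a, mult N Q a x with hS
  set n := #(cov N Q a) with hn
  have h4 : S ^ 2 ≤ n * ∑ x ∈ cov N Q a, mult N Q a x ^ 2 := sq_sum_le_card_mul_sum_sq
  set R : ℝ := ms.card * (((#Q : ℝ) * n) ^ (2 - c) * ((n : ℝ) * (n + #Q)) ^ (c - 1)) with hR
  have h2r : (B:ℝ) * ((∑ x ∈ cov N Q a, mult N Q a x ^ 2 : ℕ) : ℝ) ≤
      ∑ p ∈ Q, (#(fl N Q a K p) : ℝ) + B * (S:ℝ) := by exact_mod_cast h2
  have h4r : (S:ℝ) ^ 2 ≤ n * ((∑ x ∈ cov N Q a, mult N Q a x ^ 2 : ℕ) : ℝ) := by exact_mod_cast h4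
  have h3r : (#Q : ℝ) * A ≤ S := by exact_mod_cast h3
  have hsr : 2 * (n:ℝ) ≤ #Q * A := by exact_mod_cast hsmall
  have hn0 : (0:ℝ) ≤ n := Nat.cast_nonneg _
  have hB0 : (0:ℝ) ≤ B := Nat.cast_nonneg _
  have hQA : (0:ℝ) ≤ (#Q : ℝ) * A := by positivity
  have h5 : (B:ℝ) * (S:ℝ) ^ 2 ≤ n * (R + B * S) := by
    calc (B:ℝ) * (S:ℝ) ^ 2 ≤ B * (n * ((∑ x ∈ cov N Q a, mult N Q a x ^ 2 : ℕ) : ℝ)) := by gcongr
      _ = n * (B * ((∑ x ∈ cov N Q a, mult N Q a x ^ 2 : ℕ) : ℝ)) := by ring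
      _ ≤ n * (R + B * S) := by
          gcongr
          linarith
  have h6 : (n:ℝ) * (B * S) ≤ B * (S:ℝ) ^ 2 / 2 := by
    have : (n:ℝ) * S ≤ S ^ 2 / 2 := by nlinarith
    nlinarith
  have h7 : (B:ℝ) * (S:ℝ) ^ 2 ≤ 2 * n * R := by nlinarith
  refine le_trans ?_ h7
  gcongr

end Pool.Agent.W814.BB
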