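import Pool.Agent.H170R2.PC.Asym
import Pool.Agent.H419R3.KT.Gen
import Pool.Agent.W814.BB.Flag

/-!
# The exponents from flags and from windows
-/

set_option autoImplicit false

open Finset Filter Topology

namespace Pool.Agent.W814.BB

open Pool.Agent.H435R2.GreenCore Pool.Agent.H170R2.PC

lemma zmod_iff {p : ℕ} {z w : ℤ} : ((z : ℤ) : ZMod p) = (w : ZMod p) ↔ (p:ℤ) ∣ z - w := by
  rw [← sub_eq_zero, ← Int.cast_sub, ZMod.intCast_zmod_eq_zero_iff_dvd]

/-- lifts of the chosen classes to the integers -/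
lemma exists_lift (a : (p : ℕ) → ZMod p) : ∃ b : ℕ → ℤ, ∀ p, ((b p : ℤ) : ZMod p) = a p :=
  ⟨fun p => (ZMod.intCast_surjective (a p)).choose,
    fun p => (ZMod.intCast_surjective (a p)).choose_spec⟩

lemma card_Cov {D : Finset ℕ} {a : (p : ℕ) → ZMod p} {b : ℕ → ℤ}
    (hb : ∀ p, ((b p : ℤ) : ZMod p) = a p) (N : ℕ) : #(Cov D a N) = #(cov N D b) := by
  classical
  refine Finset.card_bij (fun n _ => (n:ℤ)) ?_ ?_ ?_
  · intro n hn
    unfold Cov at hn
    rw [mem_filter, mem_Icc] at hn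
    obtain ⟨⟨h1, h2⟩, p, hp, h3⟩ := hn
    unfold cov
    rw [mem_biUnion]
    refine ⟨p, hp, ?_⟩
    rw [mem_line]
    refine ⟨⟨by exact_mod_cast h1, by exact_mod_cast h2⟩, ?_⟩
    rw [← zmod_iff, hb p, ← h3]
    simp
  · intro n _ m _ h
    exact_mod_cast h
  · intro z hz
    unfold cov at hz
    rw [mem_biUnion] at hz
    obtain ⟨p, hp, hz⟩ := hz
    rw [mem_line] at hz
    obtain ⟨⟨h1, h2⟩, h3⟩ := hz
    lift z to ℕ using (by omega)
    refine ⟨z, ?_, rfl⟩
    unfold Cov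
    rw [mem_filter, mem_Icc]
    refine ⟨⟨by exact_mod_cast h1, by exact_mod_cast h2⟩, p, hp, ?_⟩
    rw [← zmod_iff, hb p] at h3
    simpa using h3

lemma line_card {a : (p : ℕ) → ZMod p} {b : ℕ → ℤ}
    (hb : ∀ p, ((b p : ℤ) : ZMod p) = a p) {N p m : ℕ} (hp : 0 < p) (hm : m * p ≤ N) :
    m ≤ #(line N b p) := by
  classical
  refine (card_Cl_ge (a := a) hp hm).trans ?_
  refine Finset.card_le_card_of_injOn (fun n : ℕ => (n:ℤ)) ?_ ?_
  · intro n hn
    rw [mem_coe, Cl, mem_filter, mem_Icc] at hn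
    rw [mem_coe, mem_line]
    dsimp only
    refine ⟨⟨by exact_mod_cast hn.1.1, by exact_mod_cast hn.1.2⟩, ?_⟩
    rw [← zmod_iff, hb p, ← hn.2]
    simp
  · intro n _ m _ h
    dsimp only at h
    exact_mod_cast h

lemma mult_count {N K Y B q : ℕ} (hq0 : 0 < q) (hq : q ≤ 2 * Y) (hK : 0 < K)
    (hB : B * (4 * K * Y) < N) {x : ℤ} (hx : x ∈ Icc (1:ℤ) N) :
    B ≤ #((Icc (-(N:ℤ)) N).filter (fun d => d ≠ 0 ∧ (q:ℤ) ∣ d ∧ 1 ≤ x + (K:ℤ) * d ∧
        x + (K:ℤ) * d ≤ N)) := by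
  rw [mem_Icc] at hx
  have hqB : 2 * (K * (q * B)) < N := by
    calc 2 * (K * (q * B)) ≤ 2 * (K * ((2 * Y) * B)) := by gcongr
      _ = B * (4 * K * Y) := by ring
      _ < N := hB
  have hqB' : 2 * ((K:ℤ) * (q * B)) < N := by exact_mod_cast hqB
  have hKr : (1:ℤ) ≤ K := by exact_mod_cast hK
  have hqr : (1:ℤ) ≤ q := by exact_mod_cast hq0
  have main : ∀ σ : ℤ, (σ = 1 ∨ σ = -1) → (1 ≤ x + σ * ((K:ℤ) * (q * B)) ∧
      x + σ * ((K:ℤ) * (q * B)) ≤ N) → B ≤ #((Icc (-(N:ℤ)) N).filter (fun d => d ≠ 0 ∧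
        (q:ℤ) ∣ d ∧ 1 ≤ x + (K:ℤ) * d ∧ x + (K:ℤ) * d ≤ N)) := by
    intro σ hσ hr
    have : #(range B) ≤ #((Icc (-(N:ℤ)) N).filter (fun d => d ≠ 0 ∧
        (q:ℤ) ∣ d ∧ 1 ≤ x + (K:ℤ) * d ∧ x + (K:ℤ) * d ≤ N)) := by
      refine Finset.card_le_card_of_injOn (fun i : ℕ => σ * ((q:ℤ) * ((i:ℤ) + 1))) ?_ ?_
      · intro i hi
        rw [mem_coe, mem_range] at hi
        have hi' : (i:ℤ) + 1 ≤ B := by exact_mod_cast hi
        have hi0 : (0:ℤ) ≤ i := by positivity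
        have h1 : (q:ℤ) * ((i:ℤ) + 1) ≤ q * B := mul_le_mul_of_nonneg_left hi' (by omega)
        have h2 : 0 < (q:ℤ) * ((i:ℤ) + 1) := mul_pos (by omega) (by omega)
        have h3 : (K:ℤ) * ((q:ℤ) * ((i:ℤ) + 1)) ≤ K * (q * B) :=
          mul_le_mul_of_nonneg_left h1 (by omega)
        have h4 : (q:ℤ) * ((i:ℤ) + 1) ≤ K * ((q:ℤ) * ((i:ℤ) + 1)) :=
          le_mul_of_one_le_left h2.le hKr
        rw [mem_coe, mem_filter, mem_Icc]
        dsimp only
        set t := (q:ℤ) * ((i:ℤ) + 1) with ht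
        set T := (K:ℤ) * (q * B) with hT
        have h5 : (K:ℤ) * (σ * t) = σ * (K * t) := by ring
        rw [h5]
        set u := (K:ℤ) * t with hu
        have hdv : (q:ℤ) ∣ t := ⟨_, ht⟩
        rcases hσ with rfl | rfl
        · refine ⟨⟨by omega, by omega⟩, by omega, ?_, by omega, by omega⟩
          rw [one_mul]; exact hdv
        · refine ⟨⟨by omega, by omega⟩, by omega, ?_, by omega, by omega⟩
          rw [neg_one_mul]; exact (dvd_neg).2 hdv
      · intro i _ j _ h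
        dsimp only at h
        have hσ0 : σ ≠ 0 := by rcases hσ with rfl | rfl <;> norm_num
        have h1 := mul_left_cancel₀ hσ0 h
        have h2 := mul_left_cancel₀ (show (q:ℤ) ≠ 0 by omega) h1
        omega
    rwa [card_range] at this
  by_cases h : x + (K:ℤ) * (q * B) ≤ N
  · refine main 1 (Or.inl rfl) ⟨?_, by rwa [one_mul]⟩
    have : (0:ℤ) ≤ (K:ℤ) * (q * B) := by positivity
    omega
  · refine main (-1) (Or.inr rfl) ⟨?_, ?_⟩
    · omega
    · have : (0:ℤ) ≤ (K:ℤ) * (q * B) := by positivity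
      omega

/-- the main inequality, in terms of `Cov` -/
theorem flag_nat {ms : Finset ℕ} {c : ℝ} (hc1 : 1 < c) (hc2 : c < 2) (h0 : ms.Nonempty) {K : ℕ}
    (hms : ∀ m ∈ ms, 0 < m ∧ m ≤ K) (hSB : SliceBound ms c) (hK : 0 < K)
    {D : Finset ℕ} {a : (p : ℕ) → ZMod p} {Y N B : ℕ}
    (hD : ∀ p ∈ D, p.Prime ∧ Y ≤ p ∧ p ≤ 2 * Y) (hYN : N ≤ Y * Y) (hKY : K < Y)
    (hB : B * (4 * K * Y) < N) (hsmall : 2 * #(Cov D a N) ≤ #D * B) :
    (B : ℝ) * ((#D : ℝ) * B) ^ 2 ≤ 2 * #(Cov D a N) * (ms.card *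
      (((#D : ℝ) * #(Cov D a N)) ^ (2 - c) *
        ((#(Cov D a N) : ℝ) * (#(Cov D a N) + #D)) ^ (c - 1))) := by
  obtain ⟨b, hb⟩ := exists_lift a
  rw [card_Cov hb] at hsmall ⊢
  refine flag_main hc1 hc2 h0 hms hSB B B (fun p hp => (hD p hp).1) ?_ hK ?_ ?_ ?_ hsmall
  · intro p hp q hq _
    exact hYN.trans (Nat.mul_le_mul (hD p hp).2.1 (hD q hq).2.1)
  · intro p hp
    exact hKY.trans_le (hD p hp).2.1
  · intro p hp
    refine line_card hb (hD p hp).1.pos ?_
    have h1 := (hD p hp).2.2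
    calc B * p ≤ B * (2 * Y) := Nat.mul_le_mul_left _ h1
      _ ≤ B * (4 * K * Y) := by
          refine Nat.mul_le_mul_left _ ?_
          nlinarith
      _ ≤ N := hB.le
  · intro q hq x hx
    exact mult_count (hD q hq).1.pos (hD q hq).2.2 hK hB hx

/-- the exponent from flags -/
theorem exp_flag {ms : Finset ℕ} {c : ℝ} (hc1 : 1 < c) (hc2 : c < 2) (h0 : ms.Nonempty)
    (hpos : ∀ m ∈ ms, 0 < m) (hSB : SliceBound ms c) {α : ℝ} (hα : 1 / 2 < α) (hα1 : α < 1) :
    LowerExponent α (min (3 / 2 - α) ((3 - (3 - c) * α) / (1 + c))) := by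
  intro ε hε
  set η : ℝ := min (ε / 8) (1 / 2) with hη
  have hη0 : 0 < η := lt_min (by linarith) (by norm_num)
  have hη1 : η ≤ 1 / 2 := min_le_right _ _
  have hηε : 8 * η ≤ ε := by
    have := min_le_left (ε / 8) (1 / 2 : ℝ)
    linarith
  have hc0 : 0 < 1 + c := by linarith
  set K : ℕ := ms.sup id with hKdef
  have hms : ∀ m ∈ ms, 0 < m ∧ m ≤ K := fun m hm => ⟨hpos m hm, Finset.le_sup (f := id) hm⟩
  have hK : 0 < K := by
    obtain ⟨m, hm⟩ := h0
    have := hms m hm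
    omega
  set e : ℝ := min (3 / 2 - α) ((3 - (3 - c) * α) / (1 + c)) - ε with he
  have he1 : e ≤ 3 / 2 - α - ε := by
    have := min_le_left (3 / 2 - α) ((3 - (3 - c) * α) / (1 + c))
    linarith
  have he2 : (1 + c) * e ≤ 3 - (3 - c) * α - (1 + c) * ε := by
    have h1 := min_le_right (3 / 2 - α) ((3 - (3 - c) * α) / (1 + c))
    have h2 : e ≤ (3 - (3 - c) * α) / (1 + c) - ε := by linarith
    calc (1 + c) * e ≤ (1 + c) * ((3 - (3 - c) * α) / (1 + c) - ε) :=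
          mul_le_mul_of_nonneg_left h2 hc0.le
      _ = _ := by field_simp
  have hev : ∀ᶠ N : ℕ in atTop, ∀ a : (p : ℕ) → ZMod p,
      (N : ℝ) ^ e ≤ (coveredCount α N a : ℝ) := by
    filter_upwards [ev_card (by linarith : 0 < α) hα1.le hη0 (by linarith),
      ev_div (by linarith : 0 < α) hα1 hη0 (4 * K) (by positivity), ev_const (8 * ms.card) hη0,
      ev_const 4 hη0, ev_const (K + 1) (by linarith : 0 < α), eventually_gt_atTop 1]
      with N h1 h2 h3 h4 h5 hN1 a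
    have hN0 : (0 : ℝ) < N := by exact_mod_cast (by omega : 0 < N)
    have hN1' : (1 : ℝ) < N := by exact_mod_cast hN1
    rw [coveredCount_eq]
    set Y := ⌈(N : ℝ) ^ α⌉₊ with hY
    set B := N / ((4 * K) * Y) - 1 with hB
    set D := PD α N with hDdef
    set n := #(Cov D a N) with hn
    by_contra hcon
    push Not at hcon
    have hn0 : (0 : ℝ) ≤ n := Nat.cast_nonneg _
    have hYr : (N : ℝ) ^ α ≤ Y := Nat.le_ceil _
    have hKY : K < Y := by
      have : (K : ℝ) + 1 ≤ Y := h5.trans hYr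
      have : (K : ℝ) < Y := by linarith
      exact_mod_cast this
    have hY0 : 0 < Y := by omega
    have hYN : N ≤ Y * Y := by
      have : (N : ℝ) ≤ Y * Y := by
        calc (N : ℝ) = (N : ℝ) ^ (1 : ℝ) := (Real.rpow_one _).symm
          _ ≤ (N : ℝ) ^ (α + α) := Real.rpow_le_rpow_of_exponent_le hN1'.le (by linarith)
          _ = (N : ℝ) ^ α * (N : ℝ) ^ α := Real.rpow_add hN0 _ _
          _ ≤ Y * Y := by gcongr
      exact_mod_cast this
    have hB0 : 0 < B := by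
      have : (0 : ℝ) < (B : ℝ) := lt_of_lt_of_le (Real.rpow_pos_of_pos hN0 _) h2
      exact_mod_cast this
    have hBN : B * (4 * K * Y) < N := by
      have h6 : N / ((4 * K) * Y) * ((4 * K) * Y) ≤ N := Nat.div_mul_le_self _ _
      have h7 : B + 1 ≤ N / ((4 * K) * Y) := by omega
      have h8 : (B + 1) * ((4 * K) * Y) ≤ N := (Nat.mul_le_mul_right _ h7).trans h6
      have h9 : 0 < (4 * K) * Y := by positivity
      nlinarith
    -- upper bound for the number of primes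
    have hDup : (#D : ℝ) ≤ (N : ℝ) ^ (α + η) := by
      classical
      have g1 : #D ≤ ⌈2 * (N : ℝ) ^ α⌉₊ := by
        rw [hDdef]
        unfold PD
        exact (card_filter_le _ _).trans (by rw [card_range])
      have g2 : ((⌈2 * (N : ℝ) ^ α⌉₊ : ℕ) : ℝ) < 2 * (N : ℝ) ^ α + 1 :=
        Nat.ceil_lt_add_one (by positivity)
      have g3 : (#D : ℝ) ≤ (⌈2 * (N : ℝ) ^ α⌉₊ : ℕ) := by exact_mod_cast g1
      have g4 : (1 : ℝ) ≤ (N : ℝ) ^ α := Real.one_le_rpow hN1'.le (by linarith)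
      rw [Real.rpow_add hN0]
      nlinarith
    have hlow : (N : ℝ) ^ (3 - α - 5 * η) ≤ (B : ℝ) * ((#D : ℝ) * B) ^ 2 := by
      have g1 : (N : ℝ) ^ (3 - α - 5 * η) =
          (N : ℝ) ^ (1 - α - η) * ((N : ℝ) ^ (α - η) * (N : ℝ) ^ (1 - α - η)) ^ 2 := by
        rw [← Real.rpow_add hN0, ← Real.rpow_natCast, ← Real.rpow_mul hN0.le, ← Real.rpow_add hN0]
        congr 1
        push_cast
        ring
      rw [g1]
      gcongr
    have hsmall : 2 * n ≤ #D * B := by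
      have g1 : 2 * (n : ℝ) ≤ #D * B := by
        calc 2 * (n : ℝ) ≤ (N : ℝ) ^ η * (N : ℝ) ^ e := by
              refine mul_le_mul (by linarith) hcon.le hn0 (by positivity)
          _ = (N : ℝ) ^ (η + e) := (Real.rpow_add hN0 _ _).symm
          _ ≤ (N : ℝ) ^ ((α - η) + (1 - α - η)) :=
              Real.rpow_le_rpow_of_exponent_le hN1'.le (by linarith)
          _ = (N : ℝ) ^ (α - η) * (N : ℝ) ^ (1 - α - η) := Real.rpow_add hN0 _ _
          _ ≤ #D * B := by gcongr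
      exact_mod_cast g1
    have main := flag_nat hc1 hc2 h0 hms hSB hK (a := a) (PD_prop (α := α) (N := N)) hYN hKY hBN
      hsmall
    -- upper bound
    set mx : ℝ := max e (α + η) with hmx
    have u1 : (n : ℝ) + #D ≤ 2 * (N : ℝ) ^ mx := by
      have g1 : (n : ℝ) ≤ (N : ℝ) ^ mx := hcon.le.trans
        (Real.rpow_le_rpow_of_exponent_le hN1'.le (le_max_left _ _))
      have g2 : (#D : ℝ) ≤ (N : ℝ) ^ mx := hDup.trans
        (Real.rpow_le_rpow_of_exponent_le hN1'.le (le_max_right _ _))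
      linarith
    have u2 : ((#D : ℝ) * n) ^ (2 - c) ≤ (N : ℝ) ^ ((α + η + e) * (2 - c)) := by
      rw [Real.rpow_mul hN0.le]
      refine Real.rpow_le_rpow (by positivity) ?_ (by linarith)
      rw [Real.rpow_add hN0]
      exact mul_le_mul hDup hcon.le hn0 (by positivity)
    have u3 : ((n : ℝ) * (n + #D)) ^ (c - 1) ≤ 2 * (N : ℝ) ^ ((e + mx) * (c - 1)) := by
      have g1 : (n : ℝ) * (n + #D) ≤ 2 * (N : ℝ) ^ (e + mx) := by
        rw [Real.rpow_add hN0]
        calc (n : ℝ) * (n + #D) ≤ (N : ℝ) ^ e * (2 * (N : ℝ) ^ mx) :=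
              mul_le_mul hcon.le u1 (by positivity) (by positivity)
          _ = _ := by ring
      calc ((n : ℝ) * (n + #D)) ^ (c - 1) ≤ (2 * (N : ℝ) ^ (e + mx)) ^ (c - 1) :=
            Real.rpow_le_rpow (by positivity) g1 (by linarith)
        _ = 2 ^ (c - 1) * (N : ℝ) ^ ((e + mx) * (c - 1)) := by
            rw [Real.mul_rpow (by norm_num) (by positivity), Real.rpow_mul hN0.le]
        _ ≤ 2 * (N : ℝ) ^ ((e + mx) * (c - 1)) := by
            refine mul_le_mul_of_nonneg_right ?_ (by positivity)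
            calc (2:ℝ) ^ (c - 1) ≤ 2 ^ (1:ℝ) :=
                  Real.rpow_le_rpow_of_exponent_le (by norm_num) (by linarith)
              _ = 2 := Real.rpow_one 2
    obtain ⟨E, hE⟩ : ∃ E : ℝ, E = e + (α + η + e) * (2 - c) + (e + mx) * (c - 1) := ⟨_, rfl⟩
    have hup : 2 * (n : ℝ) * (ms.card * (((#D : ℝ) * n) ^ (2 - c) * ((n : ℝ) * (n + #D)) ^ (c - 1))) ≤
        4 * ms.card * (N : ℝ) ^ E := by
      rw [hE, Real.rpow_add hN0, Real.rpow_add hN0]
      calc 2 * (n : ℝ) * (ms.card * (((#D : ℝ) * n) ^ (2 - c) * ((n : ℝ) * (n + #D)) ^ (c - 1)))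
          ≤ 2 * (N : ℝ) ^ e * (ms.card * ((N : ℝ) ^ ((α + η + e) * (2 - c)) *
            (2 * (N : ℝ) ^ ((e + mx) * (c - 1))))) := by gcongr
        _ = _ := by ring
    have hexp : η + E ≤ 3 - α - 5 * η := by
      rw [hE]
      rcases le_total e (α + η) with h | h
      · rw [hmx, max_eq_right h]
        nlinarith
      · rw [hmx, max_eq_left h]
        nlinarith
    have hfin : (N : ℝ) ^ (3 - α - 5 * η) * 2 ≤ (N : ℝ) ^ (3 - α - 5 * η) := by
      have k1 : (N : ℝ) ^ (3 - α - 5 * η) ≤ 4 * ms.card * (N : ℝ) ^ E := hlow.trans (main.trans hup)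
      have k2 : (0 : ℝ) < (N : ℝ) ^ E := Real.rpow_pos_of_pos hN0 _
      have k3 : (N : ℝ) ^ η * (N : ℝ) ^ E ≤ (N : ℝ) ^ (3 - α - 5 * η) := by
        rw [← Real.rpow_add hN0]
        exact Real.rpow_le_rpow_of_exponent_le hN1'.le hexp
      have k4 : (8 * ms.card : ℝ) * (N : ℝ) ^ E ≤ (N : ℝ) ^ η * (N : ℝ) ^ E :=
        mul_le_mul_of_nonneg_right h3 k2.le
      linarith
    have : (0 : ℝ) < (N : ℝ) ^ (3 - α - 5 * η) := Real.rpow_pos_of_pos hN0 _
    linarith
  obtain ⟨N₀, hN₀⟩ := eventually_atTop.mp hev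
  exact ⟨N₀, fun N hN a => hN₀ N hN a⟩

/-- slices at positive heights give progression bounds -/
theorem progressionBound_of_slices {ms : Finset ℕ} {c : ℝ} (hc : 0 ≤ c) (hSB : SliceBound ms c) :
    Pool.Agent.H419R3.KT.ProgressionBound (ms.sup id) 1 c := by
  classical
  intro T D x hx
  rw [one_mul]
  set G : Finset (ℤ × ℤ) := D.image fun p : ℕ => ((x p : ℤ), (p : ℤ)) with hG
  have h1 : #(G.image Prod.snd) = #D := by
    rw [hG, image_image, card_image_of_injective]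
    intro p q h
    simp only [Function.comp] at h
    exact_mod_cast h
  have h2 := hSB G
  rw [h1] at h2
  refine h2.trans (Real.rpow_le_rpow (Nat.cast_nonneg _) ?_ hc)
  have h3 : (ms.sup fun m => #(G.image fun g => g.1 + (m : ℤ) * g.2)) ≤ #T := by
    refine Finset.sup_le ?_
    intro m hm
    have : #(G.image fun g => g.1 + (m : ℤ) * g.2) ≤ #(T.image fun n : ℕ => (n : ℤ)) := by
      refine card_le_card ?_
      intro z hz
      rw [hG, image_image, mem_image] at hz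
      obtain ⟨p, hp, rfl⟩ := hz
      rw [mem_image]
      exact ⟨x p + m * p, hx p hp m (Finset.le_sup (f := id) hm), by simp⟩
    exact this.trans card_image_le
  exact_mod_cast h3

end Pool.Agent.W814.BB
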